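import Mathlib

namespace Pool.Agent.Results.MP_2eeab0_an.No

open Polynomial

variable {K : Type} [Field K]

/-- `(z, w) ↦ (P z, Q w)` leaves invariant an irreducible plane curve `F(z, w) = 0` that projects
onto both coordinate axes. -/
def Intertwined (P Q : K[X]) : Prop :=
  ∃ F : K[X][X], Irreducible F ∧
    (∀ z w, F.evalEval z w = 0 → F.evalEval (P.eval z) (Q.eval w) = 0) ∧
    (∀ z, ∃ w, F.evalEval z w = 0) ∧ ∀ w, ∃ z, F.evalEval z w = 0

/-- `A` is an invertible affine map with `P ∘ A = A ∘ M`, that is `M = A⁻¹ ∘ P ∘ A`. -/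
def ConjBy (A P M : K[X]) : Prop := A.natDegree = 1 ∧ P.comp A = A.comp M

/-- `P` is affinely conjugate to `z^d` or `± T_d` (`Chebyshev.C K d (w + w⁻¹) = w^d + w^(-d)`). -/
def Integrable (P : K[X]) : Prop :=
  ∃ A, ConjBy A P (X ^ P.natDegree) ∨ ConjBy A P (Chebyshev.C K P.natDegree) ∨
    ConjBy A P (-Chebyshev.C K P.natDegree)

/-- `z ↦ ζ z` lies in `Σ(M)` for monic centered `M`, through the reduced form of `M`. -/
def InSigma₀ (M : K[X]) (ζ : K) : Prop :=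
  (∃ (μ m : ℕ) (P₀ : K[X]), 1 ≤ m ∧ M = X ^ μ * P₀.comp (X ^ m) ∧ P₀.eval 0 ≠ 0 ∧ P₀ ≠ 1 ∧
    (¬ ∃ (Q : K[X]) (l : ℕ), 2 ≤ l ∧ P₀ = Q.comp (X ^ l)) ∧ ζ ^ m = 1) ∨
  (M = X ^ M.natDegree ∧ ∃ n, 1 ≤ n ∧ ζ ^ n = 1)

/-- `g ∈ Σ(P)`: `g = A ∘ σ ∘ A⁻¹` with `σ ∈ Σ(A⁻¹ ∘ P ∘ A)` and `A⁻¹ ∘ P ∘ A` monic centered. -/
def InSigma (P g : K[X]) : Prop :=
  ∃ (A M : K[X]) (ζ : K), ConjBy A P M ∧ M.Monic ∧ M.nextCoeff = 0 ∧ InSigma₀ M ζ ∧
    g.comp A = A.comp (C ζ * X)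

theorem lin {A : K[X]} (h : A.natDegree = 1) : ∃ a b : K, a ≠ 0 ∧ A = C a * X + C b :=
  ⟨_, _, by
    rw [← h]
    exact leadingCoeff_ne_zero.2 (ne_zero_of_natDegree_gt h.ge),
    eq_X_add_C_of_natDegree_le_one h.le⟩

theorem result (K : Type) [Field K] [IsAlgClosed K] [CharZero K] : ∃ P g : K[X],
    2 ≤ P.natDegree ∧ ¬ Integrable P ∧ g.natDegree = 1 ∧ Intertwined (P.comp g) P ∧
      ¬ InSigma P g := by
  have d : (X ^ 2 + 2 : K[X]).natDegree = 2 := by compute_degree!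
  have ev : ∀ z w : K, (X - C (4 * X - 6) : K[X][X]).evalEval z w = w - (4 * z - 6) := fun z w => by
    rw [evalEval_sub, evalEval_X, evalEval_C]; simp
  refine ⟨X ^ 2 + 2, 2 * X - 3, d.ge, ?_, by compute_degree!,
    ⟨X - C (4 * X - 6), irreducible_X_sub_C _, fun z w h => ?_, fun z => ⟨4 * z - 6, by simp only [ev, sub_self]⟩,
      fun w => ⟨(w + 6) / 4, by rw [ev]; ring⟩⟩, ?_⟩
  · rintro ⟨A, h⟩
    have key : ∀ (M : K[X]) (e c : K), (∀ z, M.eval z = e * z ^ 2 + c) → e ^ 2 = 1 →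
        ConjBy A (X ^ 2 + 2) M → e * c = 2 := by
      rintro M e c hM he ⟨h1, h2⟩
      obtain ⟨a, b, a0, rfl⟩ := lin h1
      have f := fun z => congrArg (eval z) h2
      simp only [eval_comp, hM] at f
      have f0 := f 0
      have f1 := f 1
      have f2 := f (-1)
      simp at f0 f1 f2
      have hb : b = 0 := mul_left_cancel₀ (mul_ne_zero (by norm_num : (4 : K) ≠ 0) a0) (by
        linear_combination f1 - f2)
      have ha : a = e := mul_left_cancel₀ (mul_ne_zero two_ne_zero a0) (by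
        linear_combination f1 + f2 - 2 * f0)
      subst hb ha
      linear_combination -f0
    rw [d] at h
    rcases h with h | h | h
    · simpa using key _ 1 0 (by simp) (by simp) h
    · have := key _ 1 (-2) (by simp [Chebyshev.C_two]; intro; ring) (by simp) h
      norm_num at this
    · have := key _ (-1) 2 (by simp [Chebyshev.C_two]; intro; ring) (by simp) h
      norm_num at this
  · rw [ev] at h ⊢
    simp
    linear_combination (w + 4 * z - 6) * h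
  · rintro ⟨A, M, ζ, ⟨h1, -⟩, -, -, h, e⟩
    obtain ⟨a, b, a0, rfl⟩ := lin h1
    have f0 := congrArg (eval 0) e
    have f1 := congrArg (eval 1) e
    simp at f0 f1
    obtain rfl : ζ = 2 := mul_left_cancel₀ a0 (by linear_combination f0 - f1)
    obtain ⟨n, n1, hn⟩ : ∃ n, 1 ≤ n ∧ (2 : K) ^ n = 1 := by
      rcases h with ⟨-, m, -, h, -, -, -, -, h'⟩ | ⟨-, h⟩
      exacts [⟨m, h, h'⟩, h]
    have : (2 : ℕ) ^ n = 1 := by exact_mod_cast hn
    simp at this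
    omega

end Pool.Agent.Results.MP_2eeab0_an.No
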